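import Pool.Agent.H25.RC.GD
import Pool.Agent.H25.HK.Final
import Pool.Agent.H28.RC.Final

/-!
# Zeros of Artin L-functions under real dilations (MP_347b49_nt)

Let `Λ_i` and `M_j` be Artin `L`-functions over `ℚ` of degrees `n_i`, `n'_j` (of any
representations of Galois groups of number fields), let `a_i, b_j > 0` and `τ_i, σ_j` be real, and
suppose that `d = ∑ a_i n_i - ∑ b_j n'_j` satisfies `0 < d < μ`, where `μ` is at most all `a_i` and
`b_j`. Then the zeros of `∏ M_j(1/2 + b_j (s - 1/2) + iσ_j)` are not covered by the zeros of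
`∏ Λ_i(1/2 + a_i (s - 1/2) + iτ_i)`: for every `κ` with `1/2 + d / (2μ) < κ ≤ 1` there are `A` and
`T₀` such that for `T ≥ T₀` and `T^κ ≤ W ≤ T` at least `W / (log T)^A` points with an imaginary part
in `[T, T + W]` are exceptional.

The theorem is unconditional. The proof contains Hecke's functional equations of the `L`-functions
of ray class characters, Artin reciprocity (in ideal form) and Brauer's induction theorem; Artin's
conjecture is not needed. The existence of the Artin `L`-functions as meromorphic functions on the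
complex plane is the theorem `exists_artin_LFunction` below.

Lean proof: helper25 (Defs, Targets, HE, AA, FR, GD, and the analytic part Pool/Agent/H25/DL),
helper28, helper29, helper95 (ray class characters, reciprocity, Brauer induction) and many other
helpers (see the headers of the imported files).
-/

set_option autoImplicit false

open Complex

namespace Pool.Agent.Results.MP_347b49_nt.DilatedZeros

open Pool.Agent.H25.DL

/-- `Λ` is the Artin `L`-function of `R`: it is meromorphic on the complex plane and given by the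
Euler product `∏_p det (1 - p^{-s} Frob_p | V^{I_p})^{-1}` for `Re s > 1`. -/
def IsArtinLFunction (R : ArtinRep) (Λ : ℂ → ℂ) : Prop :=
  (∀ s : ℂ, MeromorphicAt Λ s) ∧ ∀ s : ℂ, 1 < s.re → HasProd (fun p => R.euler p s) (Λ s)

/-- Brauer's theorem: the Artin `L`-functions exist. -/
theorem exists_artin_LFunction (R : ArtinRep) : ∃ Λ : ℂ → ℂ, IsArtinLFunction R Λ :=
  Pool.Agent.H28.RC.T_EXA_proved R

/-- `s` is exceptional: the orders of the `Λ_i` at the points `1/2 + a_i (s - 1/2) + iτ_i` add up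
to less than the orders of the `M_j` at the points `1/2 + b_j (s - 1/2) + iσ_j`. -/
def Exceptional {k m : ℕ} (Λ : Fin k → ℂ → ℂ) (a τ : Fin k → ℝ) (M : Fin m → ℂ → ℂ)
    (b σ : Fin m → ℝ) (s : ℂ) : Prop :=
  ∑ i, meromorphicOrderAt (Λ i) (1 / 2 + (a i : ℂ) * (s - 1 / 2) + τ i * I) <
    ∑ j, meromorphicOrderAt (M j) (1 / 2 + (b j : ℂ) * (s - 1 / 2) + σ j * I)

theorem result {k m : ℕ} (R : Fin k → ArtinRep) (Λ : Fin k → ℂ → ℂ)
    (hΛ : ∀ i, IsArtinLFunction (R i) (Λ i)) (a τ : Fin k → ℝ)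
    (S : Fin m → ArtinRep) (M : Fin m → ℂ → ℂ) (hM : ∀ j, IsArtinLFunction (S j) (M j))
    (b σ : Fin m → ℝ) (d μ κ : ℝ) (hμ : 0 < μ) (ha : ∀ i, μ ≤ a i) (hb : ∀ j, μ ≤ b j)
    (hd : ∑ i, a i * (R i).dim - ∑ j, b j * (S j).dim = d) (hd0 : 0 < d) (hdμ : d < μ)
    (hκ : 1 / 2 + d / (2 * μ) < κ) (hκ1 : κ ≤ 1) :
    ∃ A T₀ : ℝ, ∀ T W : ℝ, T₀ ≤ T → T ^ κ ≤ W → W ≤ T → ∃ Z : Finset ℂ,
      W / Real.log T ^ A ≤ Z.card ∧
      ∀ s ∈ Z, T ≤ s.im ∧ s.im ≤ T + W ∧ Exceptional Λ a τ M b σ s := by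
  subst hd
  have good : ∀ (R : ArtinRep) (F : ℂ → ℂ), IsArtinLFunction R F →
      Pool.Agent.H25.HK.Good F R.dim := fun R F h =>
    Pool.Agent.H25.RC.pf_GD1 Pool.Agent.H28.RC.T_ALL_proved R F h
  obtain ⟨A, T₀, -, h⟩ := Pool.Agent.H25.HK.final k m (fun i => (R i).dim) Λ a τ
    (fun j => (S j).dim) M b σ μ κ
    (fun i => good _ _ (hΛ i)) (fun j => good _ _ (hM j)) hμ ha hb hd0 hdμ hκ hκ1
  exact ⟨A, T₀, h⟩

end Pool.Agent.Results.MP_347b49_nt.DilatedZeros
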