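import Pool.Agent.H29.R2.All2

/-!
# Dilated zeros of Artin L-functions with equal densities (MP_347b49_nt)

Let `K/ℚ` be a finite Galois extension, `ρ_i` (`i < k`) representations of its Galois group with
characters `χ_i` and dimensions `n_i`, `Λ_i` their Artin `L`-functions, `c_i` integers of any sign,
`a_i > 0` and `τ_i` real numbers with `∑ c_i a_i n_i = 0`. Let `μ` be positive, at most all `a_i`, and
suppose that the factors of dilation `μ` do not cancel: for some `t` the sum of the `c_i χ_i` over
all `i` with `a_i = μ` and `τ_i = t` is not `0`. Then there are `δ > 0` and `T₀` such that for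
`T ≥ T₀` and `(log T)/δ ≤ W ≤ T` the product `∏ Λ_i(1/2 + a_i (s - 1/2) + i τ_i) ^ c_i` has at least
`δ W / log T` poles with an imaginary part in `[T, T + W]`.

Example: let `Λ` and `M` be Artin `L`-functions of degrees `n ≠ n'`. The zeros of
`Λ(1/2 + n' (s - 1/2))` and of `M(1/2 + n (s - 1/2))` are equally many up to `O(T)`, but the relation
`n' γ' = n γ + τ` between their zeros fails in every interval of length `C log T`. For `n = n'` and
different characters one gets the theorem of Murty and Murty and of Bombieri and Perelli on common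
zeros, with shifts and in short intervals.

The theorem is unconditional and holds for all Artin `L`-functions over `ℚ`. The proof contains
Hecke's functional equation for the ray class characters of every number field, Artin's reciprocity
law, Brauer's induction theorem and the non-vanishing of these `L`-functions on the line `Re s = 1`.
Artin's conjecture is not needed. (That the functions `Λ_i` exist as meromorphic functions is Brauer's
theorem; it is proved here too, `EXA_proved` in Pool/Agent/H29/R2/Ray.lean.)

Lean proof: helper25 (Pool/Agent/H25/MZ and the modules named there), helper29 (Pool/Agent/H29/R2)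
with modules by helper4, helper11, helper33, helper47, helper58, helper60, helper85;
helper28 and helper95 (all Artin `L`-functions: Pool/Agent/H28/RC, Pool/Agent/H95/RQ and the modules
named there).
-/

set_option autoImplicit false

open Complex

namespace Pool.Agent.Results.MP_347b49_nt.EqualDensity

open Pool.Agent.H25.DL Pool.Agent.H29.R2

/-- `Λ` is the Artin `L`-function of `R`: it is meromorphic on the complex plane and given by the
Euler product `∏_p det (1 - p^{-s} Frob_p | V^{I_p})^{-1}` for `Re s > 1`. -/
def IsArtinLFunction (R : ArtinRep) (Λ : ℂ → ℂ) : Prop :=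
  (∀ s : ℂ, MeromorphicAt Λ s) ∧ ∀ s : ℂ, 1 < s.re → HasProd (fun p => R.euler p s) (Λ s)

/-- the order of `∏ Λ_i(1/2 + a_i (s - 1/2) + i τ_i) ^ c_i` at `s` -/
noncomputable def order {k : ℕ} (Λ : Fin k → ℂ → ℂ) (a τ : Fin k → ℝ) (c : Fin k → ℤ) (s : ℂ) :
    ℤ :=
  ∑ i, c i * (meromorphicOrderAt (Λ i) (1 / 2 + (a i : ℂ) * (s - 1 / 2) + τ i * I)).untop₀

theorem result {k : ℕ} (R : GFam k) (Λ : Fin k → ℂ → ℂ)
    (hΛ : ∀ i, IsArtinLFunction (R.rep i) (Λ i)) (a τ : Fin k → ℝ) (c : Fin k → ℤ) (μ : ℝ)
    (hμ : 0 < μ) (ha : ∀ i, μ ≤ a i) (hN : R.NonDeg a τ c μ)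
    (hd : ∑ i, (c i : ℝ) * a i * (R.rep i).dim = 0) :
    ∃ δ T₀ : ℝ, 0 < δ ∧ ∀ T W : ℝ, T₀ ≤ T → δ⁻¹ * Real.log T ≤ W → W ≤ T → ∃ Z : Finset ℂ,
      δ * W / Real.log T ≤ Z.card ∧ ∀ z ∈ Z, T ≤ z.im ∧ z.im ≤ T + W ∧ order Λ a τ c z < 0 :=
  T_EQA_proved k R Λ a τ c μ hΛ hμ ha hN hd

end Pool.Agent.Results.MP_347b49_nt.EqualDensity
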