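import Pool.Agent.H29.R2.All

/-!
# Orders of the zeros of Artin L-functions modulo m (MP_347b49_nt)

Let `K/ℚ` be a finite Galois extension, `ρ_i` (`i < k`) representations of its Galois group with
characters `χ_i` and dimensions `n_i`, `Λ_i` their Artin `L`-functions, `a_i ≥ 1` and `c_i` integers
(`c_i` of any sign) and `τ_i` real numbers. Put `d = ∑ c_i a_i n_i` and let `E` be the energy: the
sum of `c_i c_j ⟨χ_i, χ_j⟩` over all `i`, `j` with `a_i = a_j` and `τ_i = τ_j` (so `E = ∑ c_i ^ 2` if
the `ρ_i` are irreducible and the triples `(ρ_i, a_i, τ_i)` are different). Let `m ≥ 1` be an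
integer with `E ≠ m^2`, let `κ ≤ 1`, `0 < d < 2 κ m` and `ε > 0`. Then for all large `T` the
interval `[T, T + T^κ]` contains the imaginary parts of at least `T^(ρ - ε)` points `s` at which the
order of `∏ Λ_i(1/2 + a_i (s - 1/2) + i τ_i) ^ c_i` is none of `0, m, 2m, 3m, …`, where
`ρ = min(κ, 4κ - 2d/m)` if `E < m^2` and `ρ = min(κ, 2κ - d/m)` if `E > m^2`.

For one function `Λ` of degree `n ≤ 3` and `m = 2` these are points of odd or negative order (zeros
of odd order if `Λ` is entire), in every interval `[T, T + T^(n/4 + ε)]`, for every `Λ` which is not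
the square of an `L`-function. For the Riemann zeta function this is the exponent of the theorem of
Hardy and Littlewood (1921). For several functions the theorem says that their zeros do not match
up modulo `m`, also after rational dilations and real shifts (for `m = 1`: the zeros of the
denominator are not covered by the zeros of the numerator).

Idea. Near a height `u` without such points the `m`-th root of the product is holomorphic and has a
functional equation of degree `d/m < 2`. Local averages of this equation give an identity
`|A_ξ(u)| = |B_ξ(u)|` between a Dirichlet polynomial of length `exp ξ` and one of length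
`u^(d/m) exp(-ξ)` for all `ξ` in a window. The mean squares over a set of `u` of positive proportion
are given by the diagonal terms, and the sum of the squares of the coefficients of the root grows
like the power `E/m^2` of the logarithm of the length (Karamata's theorem and the density theorem
for Frobenius elements with the twists `p^(-it)`). Since this power is not `1`, the two mean squares
are different.

The theorem is unconditional and holds for all Artin `L`-functions over `ℚ`. The proof contains
Hecke's functional equation for the ray class characters of every number field, Artin's reciprocity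
law, Brauer's induction theorem and the non-vanishing of these `L`-functions on the line `Re s = 1`.
Artin's conjecture is not needed. (That the functions `Λ_i` exist as meromorphic functions is Brauer's
theorem; it is proved here too, `EXA_proved` in Pool/Agent/H29/R2/Ray.lean.)

Lean proof: helper29 (energy method and families: Pool/Agent/H29/RT, RS, R2; modules by helper3,
helper4, helper11, helper14, helper27, helper31, helper33, helper34, helper36, helper42, helper47,
helper48, helper50, helper53, helper58, helper60, helper67, helper68, helper69, helper81, helper84,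
helper85, helper87, helper96), helper28 and helper95 (all Artin `L`-functions: Pool/Agent/H28/RC,
Pool/Agent/H95/RQ and the modules named there), helper25 (Pool/Agent/H25/DL, MZ, DP, HK).
-/

set_option autoImplicit false

open Complex

namespace Pool.Agent.Results.MP_347b49_nt.OrdersModulo

open Pool.Agent.H25.DL Pool.Agent.H29.R2

/-- `Λ` is the Artin `L`-function of `R`: it is meromorphic on the complex plane and given by the
Euler product `∏_p det (1 - p^{-s} Frob_p | V^{I_p})^{-1}` for `Re s > 1`. -/
def IsArtinLFunction (R : ArtinRep) (Λ : ℂ → ℂ) : Prop :=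
  (∀ s : ℂ, MeromorphicAt Λ s) ∧ ∀ s : ℂ, 1 < s.re → HasProd (fun p => R.euler p s) (Λ s)

/-- the order of `∏ Λ_i(1/2 + a_i (s - 1/2) + i τ_i) ^ c_i` at `s` -/
noncomputable def order {k : ℕ} (Λ : Fin k → ℂ → ℂ) (a : Fin k → ℕ) (τ : Fin k → ℝ)
    (c : Fin k → ℤ) (s : ℂ) : ℤ :=
  ∑ i, c i * (meromorphicOrderAt (Λ i) (1 / 2 + (a i : ℂ) * (s - 1 / 2) + τ i * I)).untop₀

theorem result {k : ℕ} (R : GFam k) (Λ : Fin k → ℂ → ℂ)
    (hΛ : ∀ i, IsArtinLFunction (R.rep i) (Λ i)) (a : Fin k → ℕ) (ha : ∀ i, 1 ≤ a i)
    (τ : Fin k → ℝ) (c : Fin k → ℤ) (m : ℕ) (κ ε ρ d : ℝ)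
    (hd : d = ∑ i, (c i : ℝ) * a i * (R.rep i).dim) (hd0 : 0 < d) (hdm : d < 2 * κ * m)
    (hκ : κ ≤ 1) (hE : R.energy a τ c ≠ (m : ℝ) ^ 2) (hε : 0 < ε)
    (h1 : R.energy a τ c < (m : ℝ) ^ 2 → ρ = min κ (4 * κ - 2 * (d / m)))
    (h2 : (m : ℝ) ^ 2 < R.energy a τ c → ρ = min κ (2 * κ - d / m)) :
    ∃ T₀ : ℝ, ∀ T : ℝ, T₀ ≤ T → ∃ Z : Finset ℂ, T ^ (ρ - ε) ≤ Z.card ∧
      ∀ z ∈ Z, T ≤ z.im ∧ z.im ≤ T + T ^ κ ∧ ¬ ∃ j : ℕ, order Λ a τ c z = (m : ℤ) * j :=
  T_GF_proved k R Λ a τ c m κ ε ρ d hΛ ha hd hd0 hdm hκ hE hε h1 h2

end Pool.Agent.Results.MP_347b49_nt.OrdersModulo
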